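import Pool.Agent.Run7.h424.M24.Tl
import Pool.Agent.Run7.h89.P24.M6

/-!
# Level 24: the torsion subgroup and the two models: the statements S_TOR and S_ISO
-/

set_option autoImplicit false

open WeierstrassCurve

namespace Run7.h424.M24

open Run7.h89.P24 (WT EI S_TOR S_ISO)

lemma vrEI (n : ℕ) :
    Pool.Agent.Y700.VR (Run7.h424.M24.EJ n) (EI n) 1 n 0 0 := by
  apply Run7.h424.M24.vr
  · simp [WeierstrassCurve.map, WT]
  · simp [WeierstrassCurve.map, WT]
  · simp [WeierstrassCurve.map, WT]
  · simp only [WeierstrassCurve.map, WT, eq_intCast]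
    push_cast
    ring
  · simp only [WeierstrassCurve.map, WT, eq_intCast]
    push_cast
    ring

/-- **the torsion subgroup** -/
theorem s_tor : S_TOR := by
  rintro n ⟨-, hn⟩
  have h8 : n % 8 = 3 := by omega
  have h := @Run7.h424.M24.torsW' n h8 _ (vrEI n) (fun a b => Classical.propDecidable (a = b))
  exact h

/-- **the two models** -/
theorem s_iso : S_ISO := fun n h4 => Run7.h424.M24.iso (by omega) (vrEI n)

end Run7.h424.M24
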