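import Mathlib

/-!
# The rational torsion points of `y² = x (x + n) (x - 3 n)`, `n = 3` modulo `8`
-/

set_option autoImplicit false

open WeierstrassCurve

namespace Run7.h424.M24

/-- the curve `y² = x (x + n) (x - 3 n)` -/
abbrev EJ (n : ℕ) : WeierstrassCurve ℚ := ⟨0, -(2 * n), 0, -(3 * (n : ℚ) ^ 2), 0⟩

lemma eqn {n : ℕ} {x y : ℚ} : (EJ n).toAffine.Equation x y ↔
    y ^ 2 = x * (x + n) * (x - 3 * n) := by
  rw [Affine.equation_iff]
  constructor
  · intro h
    simp only at h
    linear_combination h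
  · intro h
    simp only
    linear_combination h

lemma delta {n : ℕ} (hn : n ≠ 0) : (EJ n).Δ ≠ 0 := by
  have hq : (n : ℚ) ≠ 0 := by exact_mod_cast hn
  have : (EJ n).Δ = 2304 * (n : ℚ) ^ 6 := by
    simp only [WeierstrassCurve.Δ, WeierstrassCurve.b₂, WeierstrassCurve.b₄, WeierstrassCurve.b₆,
      WeierstrassCurve.b₈]
    ring
  rw [this]
  exact mul_ne_zero (by norm_num) (pow_ne_zero _ hq)

lemma ns {n : ℕ} (hn : n ≠ 0) {x y : ℚ} (h : y ^ 2 = x * (x + n) * (x - 3 * n)) :
    (EJ n).toAffine.Nonsingular x y :=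
  ((EJ n).toAffine.equation_iff_nonsingular_of_Δ_ne_zero (delta hn)).1 (eqn.2 h)

/-- the doubling formula -/
lemma dbl {n : ℕ} (x y : ℚ) (h : (EJ n).toAffine.Nonsingular x y) (hy : y ≠ 0) :
    ∃ (X Y : ℚ) (H : (EJ n).toAffine.Nonsingular X Y),
      (Affine.Point.some x y h : (EJ n).toAffine.Point) + Affine.Point.some x y h =
        Affine.Point.some X Y H ∧ X = ((x ^ 2 + 3 * n ^ 2) / (2 * y)) ^ 2 ∧
      X + n = (((x + n) ^ 2 - 4 * n ^ 2) / (2 * y)) ^ 2 ∧
      X - 3 * n = (((x - 3 * n) ^ 2 - 12 * n ^ 2) / (2 * y)) ^ 2 := by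
  have he := eqn.1 h.1
  have hne : y ≠ (EJ n).toAffine.negY x y := by
    intro h1
    simp only [Affine.negY] at h1
    apply hy
    linarith
  have h2y : (2 : ℚ) * y ≠ 0 := mul_ne_zero two_ne_zero hy
  have e1 : (EJ n).toAffine.addX x x ((EJ n).toAffine.slope x x y y) =
      ((x ^ 2 + 3 * n ^ 2) / (2 * y)) ^ 2 := by
    rw [Affine.slope_of_Y_ne rfl hne]
    simp only [Affine.addX, Affine.negY]
    have e2 : y - (-y - 0 * x - 0) = 2 * y := by ring
    rw [e2, div_pow, div_pow]
    field_simp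
    linear_combination (-(4 * (-(2 * (n : ℚ))) + 8 * x)) * he
  refine ⟨_, _, _, Affine.Point.add_self_of_Y_ne hne, e1, ?_, ?_⟩
  · rw [e1, div_pow, div_pow]
    field_simp
    linear_combination (4 * (n : ℚ)) * he
  · rw [e1, div_pow, div_pow]
    field_simp
    linear_combination (-12 * (n : ℚ)) * he


open Classical in
/-- the points of order two -/
lemma two {n : ℕ} (P : (EJ n).toAffine.Point) (h : P + P = 0) : P = 0 ∨
    ∃ (x : ℚ) (H : (EJ n).toAffine.Nonsingular x 0), P = Affine.Point.some x 0 H ∧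
      (x = 0 ∨ x = -n ∨ x = 3 * n) := by
  cases P with
  | zero => exact Or.inl rfl
  | some x y hxy =>
    right
    have he := eqn.1 hxy.1
    have hy : y = 0 := by
      by_contra hy
      obtain ⟨X, Y, H, h1, -⟩ := dbl x y hxy hy
      have h2 := h1.symm.trans h
      exact Affine.Point.some_ne_zero _ h2
    subst hy
    refine ⟨x, hxy, rfl, ?_⟩
    have h3 : x * (x + n) * (x - 3 * n) = 0 := by
      rw [← he]; ring
    rcases mul_eq_zero.1 h3 with h3 | h3
    · rcases mul_eq_zero.1 h3 with h3 | h3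
      · exact Or.inl h3
      · exact Or.inr (Or.inl (by linarith))
    · exact Or.inr (Or.inr (by linarith))

lemma v225 {n : ℕ} (hn : n % 2 = 1) : padicValRat 2 (3 * (n : ℚ) ^ 2) = 0 := by
  have h1 : (3 * (n : ℚ) ^ 2) = ((3 * (n : ℤ) ^ 2 : ℤ) : ℚ) := by push_cast; ring
  rw [h1, padicValRat.of_int, Nat.cast_eq_zero]
  apply padicValInt.eq_zero_of_not_dvd
  intro h2
  have h3 : Odd (3 * (n : ℤ) ^ 2) := by
    apply Odd.mul (by decide)
    exact Odd.pow ⟨(n / 2 : ℕ), by push_cast; omega⟩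
  rw [Int.odd_iff] at h3
  push_cast at h2
  omega

lemma vk {n : ℕ} (hn : n % 2 = 1) {k : ℤ} (hk : k % 2 = 1) : padicValRat 2 ((k : ℚ) * n) = 0 := by
  have h1 : ((k : ℚ) * n) = ((k * n : ℤ) : ℚ) := by push_cast; ring
  rw [h1, padicValRat.of_int, Nat.cast_eq_zero]
  apply padicValInt.eq_zero_of_not_dvd
  intro h2
  have h3 : ¬ (2 : ℤ) ∣ k * n := by
    intro h
    rcases (Int.prime_two.dvd_mul).1 h with h | h <;> omega
  exact h3 (by exact_mod_cast h2)

open Classical in
/-- the points of the kernel of the reduction at two -/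
lemma stepA {n : ℕ} (hn : n % 2 = 1) {x y : ℚ} (h : (EJ n).toAffine.Nonsingular x y)
    (hv : padicValRat 2 x < 0) : ∃ (X Y : ℚ) (H : (EJ n).toAffine.Nonsingular X Y),
      (Affine.Point.some x y h : (EJ n).toAffine.Point) + Affine.Point.some x y h =
        Affine.Point.some X Y H ∧ padicValRat 2 X = padicValRat 2 x - 2 := by
  have he := eqn.1 h.1
  have hx0 : x ≠ 0 := by
    rintro rfl
    simp at hv
  have hnq : (n : ℚ) ≠ 0 := by
    have : n ≠ 0 := by omega
    exact_mod_cast this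
  have ex : ∀ k : ℤ, k % 2 = 1 → x + k * n ≠ 0 ∧ padicValRat 2 (x + k * n) = padicValRat 2 x := by
    intro k hk
    have h0 : x + k * n ≠ 0 := by
      intro h0
      have h1 : padicValRat 2 x = 0 := by
        have h2 : x = -((k : ℚ) * n) := by linarith
        rw [h2, padicValRat.neg]
        exact vk hn hk
      omega
    refine ⟨h0, padicValRat.add_eq_of_lt h0 hx0 ?_ ?_⟩
    · have : k ≠ 0 := by omega
      exact mul_ne_zero (by exact_mod_cast this) hnq
    · rw [vk hn hk]
      exact hv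
  obtain ⟨h9, v9⟩ := ex 1 (by norm_num)
  obtain ⟨h25, v25⟩ := ex (-3) (by norm_num)
  push_cast at h9 v9 h25 v25
  rw [one_mul] at h9 v9
  rw [neg_mul, ← sub_eq_add_neg] at h25 v25
  have hy2 : y ^ 2 ≠ 0 := by
    rw [he]
    exact mul_ne_zero (mul_ne_zero hx0 h9) h25
  have hy : y ≠ 0 := by
    rintro rfl
    exact hy2 (by norm_num)
  have vy : 2 * padicValRat 2 y = 3 * padicValRat 2 x := by
    have h1 : padicValRat 2 (y ^ 2) = 2 * padicValRat 2 y := by
      rw [padicValRat.pow]
      norm_num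
    rw [← h1, he, padicValRat.mul (mul_ne_zero hx0 h9) h25, padicValRat.mul hx0 h9, v9, v25]
    ring
  obtain ⟨X, Y, H, h1, h2, -⟩ := dbl x y h hy
  refine ⟨X, Y, H, h1, ?_⟩
  have hx2 : padicValRat 2 (x ^ 2) = 2 * padicValRat 2 x := by
    rw [padicValRat.pow]
    norm_num
  have h3 : x ^ 2 + 3 * (n : ℚ) ^ 2 ≠ 0 := by
    intro h0
    have h4 : padicValRat 2 (x ^ 2) = 0 := by
      have h5 : x ^ 2 = -(3 * (n : ℚ) ^ 2) := by linarith
      rw [h5, padicValRat.neg]
      exact v225 hn
    omega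
  have h4 : padicValRat 2 (x ^ 2 + 3 * (n : ℚ) ^ 2) = 2 * padicValRat 2 x := by
    rw [← hx2]
    apply padicValRat.add_eq_of_lt
    · exact h3
    · exact pow_ne_zero _ hx0
    · exact mul_ne_zero (by norm_num) (pow_ne_zero _ hnq)
    · rw [v225 hn, hx2]
      omega
  have h5 : padicValRat 2 (2 * y) = 1 + padicValRat 2 y := by
    rw [padicValRat.mul two_ne_zero hy]
    congr 1
    have : (2 : ℚ) = ((2 : ℕ) : ℚ) := by norm_num
    rw [this]
    exact padicValRat.self (by norm_num)
  rw [h2, padicValRat.pow,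
    padicValRat.div h3 (mul_ne_zero two_ne_zero hy), h4, h5]
  push_cast
  linarith

open Classical in
/-- the torsion points have coordinates integral at two -/
lemma intA {n : ℕ} (hn : n % 2 = 1) {x y : ℚ} (h : (EJ n).toAffine.Nonsingular x y)
    (hf : IsOfFinAddOrder (Affine.Point.some x y h : (EJ n).toAffine.Point)) :
    0 ≤ padicValRat 2 x := by
  by_contra hc
  push Not at hc
  have key : ∀ k : ℕ, ∃ (X Y : ℚ) (H : (EJ n).toAffine.Nonsingular X Y),
      (2 ^ k) • (Affine.Point.some x y h : (EJ n).toAffine.Point) = Affine.Point.some X Y H ∧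
        padicValRat 2 X = padicValRat 2 x - 2 * k := by
    intro k
    induction k with
    | zero => exact ⟨x, y, h, by rw [pow_zero, one_smul], by simp⟩
    | succ k ih =>
      obtain ⟨X, Y, H, h1, h2⟩ := ih
      obtain ⟨X', Y', H', h3, h4⟩ := stepA hn H (by rw [h2]; omega)
      refine ⟨X', Y', H', ?_, ?_⟩
      · rw [pow_succ, mul_comm, mul_smul, h1, two_smul, h3]
      · rw [h4, h2]
        push_cast
        ring
  have hfin := finite_multiples.2 hf
  have hinj : Function.Injective (fun k : ℕ =>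
      (⟨(2 ^ k) • (Affine.Point.some x y h : (EJ n).toAffine.Point), ⟨2 ^ k, rfl⟩⟩ :
        (AddSubmonoid.multiples (Affine.Point.some x y h : (EJ n).toAffine.Point)))) := by
    intro k l hkl
    have h5 := congrArg Subtype.val hkl
    simp only at h5
    obtain ⟨X, Y, H, h1, h2⟩ := key k
    obtain ⟨X', Y', H', h1', h2'⟩ := key l
    rw [h1, h1'] at h5
    have h6 := ((Affine.Point.some.injEq ..).mp h5).1
    rw [← h6, h2] at h2'
    omega
  have : Finite (AddSubmonoid.multiples (Affine.Point.some x y h : (EJ n).toAffine.Point)) := hfin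
  exact not_injective_infinite_finite _ hinj

end Run7.h424.M24
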